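import Pool.Agent.H55.FFM.TP

/-!
# The residue fields at the primes above `X = 0` (row PV2 of ffm_modules)
-/

set_option autoImplicit false

open IsDedekindDomain
open Pool.Agent.H55.FFM

namespace Pool.Agent.H42.FFM

theorem pf_PV2 : T_PV2 := by
  intro k B _ _ _ _ _ _ _ _ P hX b
  have hdom : IsDomain (B ⧸ P.asIdeal) := Ideal.Quotient.isDomain _
  have hhom : (algebraMap k (B ⧸ P.asIdeal)).comp (Polynomial.evalRingHom (0 : k)) =
      (Ideal.Quotient.mk P.asIdeal).comp (algebraMap (Polynomial k) B) := by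
    apply Polynomial.ringHom_ext
    · intro c
      rw [RingHom.comp_apply, RingHom.comp_apply, Polynomial.coe_evalRingHom, Polynomial.eval_C]
      have h1 : algebraMap (Polynomial k) B (Polynomial.C c) = algebraMap k B c := by
        rw [IsScalarTower.algebraMap_apply k (Polynomial k) B]
        rfl
      rw [h1]
      rfl
    · rw [RingHom.comp_apply, RingHom.comp_apply, Polynomial.coe_evalRingHom,
        Polynomial.eval_X, map_zero]
      exact (Ideal.Quotient.eq_zero_iff_mem.2 hX).symm
  have hint : Algebra.IsIntegral k (B ⧸ P.asIdeal) := by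
    refine ⟨fun q => ?_⟩
    obtain ⟨b, rfl⟩ := Ideal.Quotient.mk_surjective q
    obtain ⟨p, hp, hp0⟩ := Algebra.IsIntegral.isIntegral (R := Polynomial k) b
    refine ⟨p.map (Polynomial.evalRingHom 0), hp.map _, ?_⟩
    rw [Polynomial.eval₂_map, hhom, ← Polynomial.hom_eval₂, hp0, map_zero]
  obtain ⟨c, hc⟩ := (IsAlgClosed.algebraMap_bijective_of_isIntegral
    (k := k) (K := B ⧸ P.asIdeal)).2 (Ideal.Quotient.mk P.asIdeal b)
  refine ⟨c, ?_⟩
  rw [← Ideal.Quotient.eq_zero_iff_mem, map_sub, ← hc]
  exact sub_self _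

end Pool.Agent.H42.FFM
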