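import Pool.Agent.H55.FFM.TP
import Pool.Agent.H55.FFM.Lem

/-!
# The degree of a function is the number of its poles (row DGP of ffm_modules)
-/

set_option autoImplicit false

open IsDedekindDomain
open Pool.Agent.H55.FFM

namespace Pool.Agent.H42.FFM

section

variable {k F S : Type} [Field k] [Field F] [Algebra k F] {v : S → F → ℤ}

theorem v_neg (h : Vs k v) (s : S) {a : F} (ha : a ≠ 0) : v s (-a) = v s a := by
  have h1 : v s (-1) = 0 := by
    have h2 := h.cst s (-1) (neg_ne_zero.2 one_ne_zero)
    rwa [map_neg, map_one] at h2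
  rw [← neg_one_mul, h.mul s _ _ (neg_ne_zero.2 one_ne_zero) ha, h1, zero_add]

theorem v_add_lt (h : Vs k v) (s : S) {a b : F} (ha : a ≠ 0) (hb : b ≠ 0)
    (hab : v s a < v s b) : a + b ≠ 0 ∧ v s (a + b) = v s a := by
  have h0 : a + b ≠ 0 := by
    intro h0
    rw [eq_neg_of_add_eq_zero_left h0, v_neg h s hb] at hab
    exact lt_irrefl _ hab
  refine ⟨h0, le_antisymm ?_ ?_⟩
  · have h1 := h.add s (a + b) (-b) h0 (neg_ne_zero.2 hb) (by rwa [add_neg_cancel_right])
    rw [add_neg_cancel_right, v_neg h s hb] at h1
    rcases min_le_iff.1 h1 with h2 | h2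
    · exact h2
    · exact absurd hab (not_lt.2 h2)
  · have h1 := h.add s a b ha hb h0
    rwa [min_eq_left hab.le] at h1

theorem alg_cst [IsAlgClosed k] {r : F} (hr : IsAlgebraic k r) :
    ∃ c : k, algebraMap k F c = r := by
  have h1 := IsAlgClosed.degree_eq_one_of_irreducible k (minpoly.irreducible hr.isIntegral)
  exact minpoly.mem_range_of_degree_eq_one k r h1

end

theorem pf_DGP (hLOW : T_LOW) (_hCSZ : T_CSZ) : T_DGP := by
  classical
  intro k F _ _ _ _ _ R S _ v hcv hpd r hr hr0
  have hv : Vs k v := hpd.toVs
  by_cases ht : Transcendental k r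
  · have hfin := fin_cv hcv ht
    have h1 := hLOW k F R ⟨r, hr⟩ hcv.fg hcv.top ht hfin
    have hres : ∀ s, ∃ c : k, 0 ≤ v s r → r = algebraMap k F c ∨
        0 < v s (r - algebraMap k F c) := by
      intro s
      by_cases h : 0 ≤ v s r
      · obtain ⟨c, hc⟩ := hv.res s r hr0 h
        exact ⟨c, fun _ => hc⟩
      · exact ⟨0, fun h' => absurd h' h⟩
    choose cs hcs using hres
    obtain ⟨c, hc⟩ := ((h1.union ((Set.finite_range cs).union
      (Set.finite_singleton (0 : k)))).infinite_compl).nonempty
    simp only [Set.mem_compl_iff, Set.mem_union, Set.mem_ofPred_eq, Set.mem_range,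
      Set.mem_singleton_iff, not_or, not_not, not_exists] at hc
    obtain ⟨hc1, hc2, hc3⟩ := hc
    have hrc : ∀ c' : k, r - algebraMap k F c' ≠ 0 := by
      intro c' h
      apply ht
      rw [sub_eq_zero.1 h]
      exact isAlgebraic_algebraMap c'
    have hne : ∀ c' : k, c' ≠ 0 → algebraMap k F c' ≠ 0 := fun c' h h' =>
      h ((map_eq_zero_iff _ (algebraMap k F).injective).1 h')
    have hval : ∀ s, v s (r - algebraMap k F c) = -max 0 (-v s r) := by
      intro s
      by_cases h : 0 ≤ v s r
      · have h2 : 0 < v s (r - algebraMap k F (cs s)) := by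
          rcases hcs s h with h3 | h3
          · exact absurd (sub_eq_zero.2 h3) (hrc _)
          · exact h3
        have h3 : cs s - c ≠ 0 := sub_ne_zero.2 (hc2 s)
        have h4 : v s (algebraMap k F (cs s - c)) = 0 := hv.cst s _ h3
        have h5 := (v_add_lt hv s (hne _ h3) (hrc (cs s)) (by rw [h4]; exact h2)).2
        have h6 : algebraMap k F (cs s - c) + (r - algebraMap k F (cs s)) =
            r - algebraMap k F c := by
          rw [map_sub]
          ring
        rw [h6, h4] at h5
        rw [h5, max_eq_left (by omega), neg_zero]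
      · push Not at h
        have h4 : v s (algebraMap k F (-c)) = 0 := hv.cst s _ (neg_ne_zero.2 hc3)
        have h5 := (v_add_lt hv s hr0 (hne _ (neg_ne_zero.2 hc3)) (by rw [h4]; exact h)).2
        have h6 : r + algebraMap k F (-c) = r - algebraMap k F c := by
          rw [map_neg]
          ring
        rw [h6] at h5
        rw [h5, max_eq_right (by omega), neg_neg]
    have h2 : ((⟨r, hr⟩ : R) - algebraMap k R c) ≠ 0 := by
      intro h
      exact hrc c (congrArg Subtype.val h)
    have h3 := (hpd.len _ h2).2
    rw [hc1] at h3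
    rw [h3, ← Finset.sum_neg_distrib]
    refine Finset.sum_congr rfl fun s _ => ?_
    have h4 : ((((⟨r, hr⟩ : R) - algebraMap k R c : R) : F)) = r - algebraMap k F c := rfl
    rw [h4, hval s, neg_neg]
  · have halg : IsAlgebraic k r := not_not.1 ht
    obtain ⟨c, rfl⟩ := alg_cst halg
    have hc : c ≠ 0 := by
      rintro rfl
      exact hr0 (map_zero _)
    have h1 : ∀ s, max 0 (-v s (algebraMap k F c)) = 0 := by
      intro s
      rw [hv.cst s c hc]
      simp
    rw [Finset.sum_congr rfl fun s _ => h1 s, Finset.sum_const_zero]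
    have h2 : dg k {algebraMap k F c} = 0 := by
      by_contra h
      have hfin : Module.Finite (IntermediateField.adjoin k {algebraMap k F c}) F :=
        Module.finite_of_finrank_pos (Nat.pos_of_ne_zero h)
      have hbot : IntermediateField.adjoin k {algebraMap k F c} = ⊥ := by
        rw [IntermediateField.adjoin_simple_eq_bot_iff]
        exact IntermediateField.algebraMap_mem _ c
      rw [hbot] at hfin
      obtain ⟨y, hy⟩ := hcv.tra
      apply hy
      have h3 : IsAlgebraic (⊥ : IntermediateField k F) y :=
        Algebra.IsAlgebraic.isAlgebraic y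
      exact h3.restrictScalars k
    rw [h2]
    rfl

end Pool.Agent.H42.FFM
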