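import Pool.Agent.H55.FFM.TP
import Pool.Agent.H55.FFM.Lem

/-!
# The places at infinity (row PLA of ffm_modules)
-/

set_option autoImplicit false

open IsDedekindDomain
open Pool.Agent.H55.FFM

namespace Pool.Agent.H42.FFM

/-- the integral closure of `k[X]` in a finite extension of `k(X)` -/
theorem ic_facts {k F : Type} [Field k] [CharZero k] [Field F] [Algebra k F]
    [Algebra (Polynomial k) F] [IsScalarTower k (Polynomial k) F]
    (hinj : Function.Injective (algebraMap (Polynomial k) F))
    (hfin : FiniteDimensional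
      (IntermediateField.adjoin k {algebraMap (Polynomial k) F Polynomial.X}) F) :
    IsDedekindDomain (integralClosure (Polynomial k) F) ∧
    Module.Finite (Polynomial k) (integralClosure (Polynomial k) F) ∧
    IsFractionRing (integralClosure (Polynomial k) F) F := by
  have : FaithfulSMul (Polynomial k) F := (faithfulSMul_iff_algebraMap_injective _ _).2 hinj
  let _ := FractionRing.liftAlgebra (Polynomial k) F
  have : IsScalarTower (Polynomial k) (FractionRing (Polynomial k)) F :=
    FractionRing.isScalarTower_liftAlgebra (Polynomial k) F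
  have hrange : ∀ c ∈ IntermediateField.adjoin k {algebraMap (Polynomial k) F Polynomial.X},
      ∃ d : FractionRing (Polynomial k), algebraMap (FractionRing (Polynomial k)) F d = c := by
    intro c hc
    induction hc using IntermediateField.adjoin_induction with
    | mem x hx =>
      rw [Set.mem_singleton_iff.1 hx]
      exact ⟨algebraMap _ _ Polynomial.X, (IsScalarTower.algebraMap_apply _ _ _ _).symm⟩
    | algebraMap x =>
      refine ⟨algebraMap (Polynomial k) _ (algebraMap k _ x), ?_⟩
      rw [← IsScalarTower.algebraMap_apply, ← IsScalarTower.algebraMap_apply]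
    | add x y _ _ hx hy =>
      obtain ⟨a, rfl⟩ := hx
      obtain ⟨b, rfl⟩ := hy
      exact ⟨a + b, map_add _ _ _⟩
    | inv x _ hx =>
      obtain ⟨a, rfl⟩ := hx
      exact ⟨a⁻¹, map_inv₀ _ _⟩
    | mul x y _ _ hx hy =>
      obtain ⟨a, rfl⟩ := hx
      obtain ⟨b, rfl⟩ := hy
      exact ⟨a * b, map_mul _ _ _⟩
  have hfd : FiniteDimensional (FractionRing (Polynomial k)) F := by
    obtain ⟨s, hs⟩ := hfin.fg_top
    refine ⟨⟨s, eq_top_iff.2 fun x _ => ?_⟩⟩
    have hx : x ∈ Submodule.span
        (IntermediateField.adjoin k {algebraMap (Polynomial k) F Polynomial.X}) (s : Set F) := by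
      rw [hs]
      trivial
    induction hx using Submodule.span_induction with
    | mem y hy => exact Submodule.subset_span hy
    | zero => exact zero_mem _
    | add y z _ _ hy hz => exact add_mem (hy trivial) (hz trivial)
    | smul c y _ hy =>
      obtain ⟨d, hd⟩ := hrange c c.2
      have h1 : c • y = d • y := by
        rw [Algebra.smul_def, Algebra.smul_def, hd]
        rfl
      rw [h1]
      exact Submodule.smul_mem _ _ (hy trivial)
  have : CharZero (FractionRing (Polynomial k)) :=
    charZero_of_injective_algebraMap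
      (R := Polynomial k) (IsFractionRing.injective (Polynomial k) _)
  have : Algebra.IsSeparable (FractionRing (Polynomial k)) F := inferInstance
  exact ⟨integralClosure.isDedekindDomain (Polynomial k) (FractionRing (Polynomial k)) F,
    IsIntegralClosure.finite (Polynomial k) (FractionRing (Polynomial k)) F _,
    integralClosure.isFractionRing_of_finite_extension (FractionRing (Polynomial k)) F⟩

/-- the field of fractions of the coordinate ring -/
theorem frac_R {k F : Type} [Field k] [Field F] [Algebra k F] {R : Subalgebra k F}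
    (h : IntermediateField.adjoin k (R : Set F) = ⊤) : IsFractionRing R F := by
  have : FaithfulSMul R F := (faithfulSMul_iff_algebraMap_injective _ _).2
    Subtype.val_injective
  refine IsFractionRing.of_field R F fun z => ?_
  have hz : z ∈ IntermediateField.adjoin k (R : Set F) := by
    rw [h]
    trivial
  rw [IntermediateField.mem_adjoin_iff_div, Algebra.adjoin_eq] at hz
  obtain ⟨x, hx, y, hy, rfl⟩ := hz
  exact ⟨⟨x, hx⟩, ⟨y, hy⟩, rfl⟩

/-- the valuations above `X = 0` -/
theorem vs_facts (hPV1 : T_PV1) (hPV2 : T_PV2) {k B F : Type} [Field k] [IsAlgClosed k]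
    [CommRing B] [IsDedekindDomain B] [Algebra k B] [Algebra (Polynomial k) B]
    [IsScalarTower k (Polynomial k) B] [Algebra.IsIntegral (Polynomial k) B] [Field F]
    [Algebra B F] [IsFractionRing B F] [Algebra k F] [IsScalarTower k B F] :
    Vs k (fun (s : Sin k B) (a : F) => vP s.1 a) := by
  obtain ⟨hmul, hadd, hint, huni, hdst, hfra⟩ := hPV1 B F
  have hinj := IsFractionRing.injective B F
  have hB : ∀ c : k, algebraMap B F (algebraMap k B c) = algebraMap k F c := fun c =>
    (IsScalarTower.algebraMap_apply k B F c).symm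
  have hne : ∀ c : k, c ≠ 0 → algebraMap k F c ≠ 0 := fun c h h' =>
    h ((map_eq_zero_iff _ (algebraMap k F).injective).1 h')
  have hneB : ∀ c : k, c ≠ 0 → algebraMap k B c ≠ 0 := by
    intro c hc h
    apply hne c hc
    rw [← hB, h, map_zero]
  have h1 : ∀ P : HeightOneSpectrum B, vP P (1 : F) = 0 := by
    intro P
    have h := hmul P 1 1 one_ne_zero one_ne_zero
    rw [mul_one] at h
    omega
  have hcst : ∀ (P : HeightOneSpectrum B) (c : k), c ≠ 0 → vP P (algebraMap k F c) = 0 := by
    intro P c hc
    have h2 := (hint P _ (hneB c hc)).1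
    have h3 := (hint P _ (hneB c⁻¹ (inv_ne_zero hc))).1
    have h4 := hmul P _ _ (hne c hc) (hne c⁻¹ (inv_ne_zero hc))
    rw [← map_mul, mul_inv_cancel₀ hc, map_one, h1] at h4
    rw [hB] at h2 h3
    omega
  refine ⟨fun s => hmul s.1, fun s => hadd s.1, fun s => hcst s.1, ?_, fun s => huni s.1,
    fun s s' h => Subtype.ext (hdst s.1 s'.1 h)⟩
  intro s a ha hva
  obtain ⟨P, hP⟩ := s
  obtain ⟨b, c, hc, hbc⟩ := hfra P a ha hva
  obtain ⟨β, hβ⟩ := hPV2 k B P hP b
  obtain ⟨γ, hγ⟩ := hPV2 k B P hP c
  have hγ0 : γ ≠ 0 := by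
    rintro rfl
    rw [map_zero, sub_zero] at hγ
    exact hc hγ
  refine ⟨β / γ, ?_⟩
  by_cases hab : a = algebraMap k F (β / γ)
  · exact Or.inl hab
  right
  have hab' : a - algebraMap k F (β / γ) ≠ 0 := sub_ne_zero.2 hab
  have hc0 : c ≠ 0 := by
    rintro rfl
    exact hc (zero_mem _)
  have hcF : algebraMap B F c ≠ 0 := fun h => hc0 ((map_eq_zero_iff _ hinj).1 h)
  obtain ⟨e, he⟩ : ∃ e : B, e = algebraMap k B γ * b - algebraMap k B β * c := ⟨_, rfl⟩
  have he1 : algebraMap B F e =
      (a - algebraMap k F (β / γ)) * (algebraMap B F c * algebraMap k F γ) := by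
    have h2 : algebraMap k F (β / γ) * algebraMap k F γ = algebraMap k F β := by
      rw [← map_mul, div_mul_cancel₀ _ hγ0]
    rw [he, map_sub, map_mul, map_mul, hB, hB, ← hbc, ← h2]
    ring
  have he0 : e ≠ 0 := by
    rintro rfl
    rw [map_zero] at he1
    exact mul_ne_zero hab' (mul_ne_zero hcF (hne γ hγ0)) he1.symm
  have heP : e ∈ P.asIdeal := by
    have h2 : e = algebraMap k B γ * (b - algebraMap k B β) -
        algebraMap k B β * (c - algebraMap k B γ) := by
      rw [he]
      ring
    rw [h2]
    exact sub_mem (Ideal.mul_mem_left _ _ hβ) (Ideal.mul_mem_left _ _ hγ)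
  have h2 := (hint P e he0).2.2 heP
  have h3 : ¬ 0 < vP P (algebraMap B F c) := fun h => hc ((hint P c hc0).2.1 h)
  have h4 := (hint P c hc0).1
  rw [he1, hmul P _ _ hab' (mul_ne_zero hcF (hne γ hγ0)), hmul P _ _ hcF (hne γ hγ0),
    hcst P γ hγ0] at h2
  change 0 < vP P (a - algebraMap k F (β / γ))
  omega

theorem pf_PLA (hNOE : T_NOE) (hPV1 : T_PV1) (hPV2 : T_PV2) (hPV3 : T_PV3) (hPV4 : T_PV4)
    (hLNN : T_LNN) (hNRF : T_NRF) : T_PLA := by
  classical
  intro k F _ _ _ _ _ R hcv
  obtain ⟨l, hl, htr, hfin, hint⟩ := hNOE k F R hcv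
  have hl0 : l ≠ 0 := by
    rintro rfl
    exact htr isAlgebraic_zero
  have htr' : Transcendental k l⁻¹ := by
    intro h
    apply htr
    rw [← inv_inv l]
    exact h.inv
  letI algF : Algebra (Polynomial k) F :=
    (Polynomial.aeval l⁻¹ : Polynomial k →ₐ[k] F).toRingHom.toAlgebra
  have halgF : ∀ p : Polynomial k, algebraMap (Polynomial k) F p = Polynomial.aeval l⁻¹ p :=
    fun p => rfl
  have : IsScalarTower k (Polynomial k) F := IsScalarTower.of_algebraMap_eq fun c => by
    rw [halgF, Polynomial.algebraMap_apply, Algebra.algebraMap_self, RingHom.id_apply,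
      Polynomial.aeval_C]
  have hinjF : Function.Injective (algebraMap (Polynomial k) F) := by
    have h1 := transcendental_iff_injective.1 htr'
    exact h1
  have hX : algebraMap (Polynomial k) F Polynomial.X = l⁻¹ := by
    rw [halgF, Polynomial.aeval_X]
  have hfin' : FiniteDimensional
      (IntermediateField.adjoin k {algebraMap (Polynomial k) F Polynomial.X}) F := by
    rw [hX]
    exact fin_cv hcv htr'
  obtain ⟨i1, i2, i3⟩ := ic_facts hinjF hfin'
  have hBX : ∀ p : Polynomial k, algebraMap (integralClosure (Polynomial k) F) F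
      (algebraMap (Polynomial k) (integralClosure (Polynomial k) F) p) =
        Polynomial.aeval l⁻¹ p := fun p => rfl
  have : IsScalarTower k (Polynomial k) (integralClosure (Polynomial k) F) :=
    IsScalarTower.of_algebraMap_eq fun c => by
      apply Subtype.ext
      exact IsScalarTower.algebraMap_apply k (Polynomial k) F c
  have : IsScalarTower k (integralClosure (Polynomial k) F) F :=
    IsScalarTower.of_algebraMap_eq fun c => rfl
  have hinjB : Function.Injective
      (algebraMap (Polynomial k) (integralClosure (Polynomial k) F)) := by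
    intro p q h
    apply hinjF
    exact congrArg Subtype.val h
  obtain ⟨hS, hsum⟩ := hPV4 k (integralClosure (Polynomial k) F) F hinjB
  letI : Fintype (Sin k (integralClosure (Polynomial k) F)) := Fintype.ofFinite _
  have hvs : Vs k (fun (s : Sin k (integralClosure (Polynomial k) F)) (a : F) => vP s.1 a) :=
    vs_facts hPV1 hPV2
  obtain ⟨hmul, hadd, hnn, huni, hdst, hfra⟩ := hPV1 (integralClosure (Polynomial k) F) F
  have hl1 : ∀ P : HeightOneSpectrum (integralClosure (Polynomial k) F),
      algebraMap (Polynomial k) (integralClosure (Polynomial k) F) Polynomial.X ∈ P.asIdeal →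
      0 < vP P l⁻¹ := by
    intro P hP
    have h1 : algebraMap (Polynomial k) (integralClosure (Polynomial k) F) Polynomial.X ≠ 0 := by
      intro h
      exact Polynomial.X_ne_zero ((map_eq_zero_iff _ hinjB).1 h)
    have h2 := (hnn P _ h1).2.2 hP
    rwa [hBX, Polynomial.aeval_X] at h2
  refine ⟨Sin k (integralClosure (Polynomial k) F), inferInstance,
    fun s a => vP s.1 a, ⟨hvs, ?_, ?_, ?_⟩⟩
  · refine ⟨l, hl, hl0, fun s => ?_⟩
    have h1 := hl1 s.1 s.2
    have h2 := hmul s.1 l l⁻¹ hl0 (inv_ne_zero hl0)
    rw [mul_inv_cancel₀ hl0] at h2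
    have h3 := hvs.cst s 1 one_ne_zero
    rw [map_one] at h3
    change vP s.1 (1 : F) = 0 at h3
    change vP s.1 l < 0
    omega
  · intro O hO hRO
    have hclosed : ∀ (y x : F), y ∈ O →
        (Polynomial.aeval y : Polynomial k →ₐ[k] F).toRingHom.IsIntegralElem x → x ∈ O := by
      intro y x hy hx
      obtain ⟨p, hp, hp0⟩ := hx
      have hmem : ∀ q : Polynomial k, Polynomial.aeval y q ∈ O := by
        intro q
        rw [Polynomial.aeval_eq_sum_range]
        refine sum_mem fun i _ => ?_
        rw [Algebra.smul_def]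
        exact mul_mem (hO _) (pow_mem hy _)
      let f : Polynomial k →+* O :=
        ((Polynomial.aeval y : Polynomial k →ₐ[k] F).toRingHom).codRestrict O hmem
      have h1 : IsIntegral O x := by
        refine ⟨p.map f, hp.map f, ?_⟩
        rw [Polynomial.eval₂_map]
        exact hp0
      obtain ⟨z, hz⟩ := IsIntegrallyClosed.isIntegral_iff.1 h1
      rw [← hz]
      exact z.2
    have hlO : l ∉ O := by
      intro h
      obtain ⟨r, hr, hrO⟩ := hRO
      exact hrO (hclosed l r h (hint r hr))
    have hliO : l⁻¹ ∈ O := (O.mem_or_inv_mem l).resolve_left hlO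
    obtain ⟨P, hP1, hP2⟩ := hPV3 (integralClosure (Polynomial k) F) F O
      (fun b => hclosed l⁻¹ b hliO b.2) ⟨l, hlO⟩
    refine ⟨⟨P, ?_⟩, hP2⟩
    have h1 : algebraMap (Polynomial k) (integralClosure (Polynomial k) F) Polynomial.X ≠ 0 := by
      intro h
      exact Polynomial.X_ne_zero ((map_eq_zero_iff _ hinjB).1 h)
    rw [hP1 _ h1, hBX, Polynomial.aeval_X, inv_inv]
    exact hlO
  · intro r hr
    letI algR : Algebra (Polynomial k) R :=
      (Polynomial.aeval (⟨l, hl⟩ : R) : Polynomial k →ₐ[k] R).toRingHom.toAlgebra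
    have hRX : ∀ p : Polynomial k, algebraMap R F (algebraMap (Polynomial k) R p) =
        Polynomial.aeval l p := by
      intro p
      change R.val (Polynomial.aeval (⟨l, hl⟩ : R) p) = _
      rw [← Polynomial.aeval_algHom_apply]
      rfl
    have : IsScalarTower k (Polynomial k) R := IsScalarTower.of_algebraMap_eq fun c => by
      change _ = Polynomial.aeval (⟨l, hl⟩ : R) (algebraMap k (Polynomial k) c)
      rw [Polynomial.algebraMap_apply, Algebra.algebraMap_self, RingHom.id_apply,
        Polynomial.aeval_C]
    have : Algebra.FiniteType k R := R.fg_iff_finiteType.1 hcv.fg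
    have : Algebra.FiniteType (Polynomial k) R :=
      Algebra.FiniteType.of_restrictScalars_finiteType k (Polynomial k) R
    have : Algebra.IsIntegral (Polynomial k) R := by
      refine ⟨fun x => ?_⟩
      obtain ⟨p, hp, hp0⟩ := hint x x.2
      refine ⟨p, hp, ?_⟩
      apply Subtype.val_injective
      change R.val.toRingHom (Polynomial.eval₂ (algebraMap (Polynomial k) R) x p) = 0
      rw [Polynomial.hom_eval₂, ← hp0]
      congr 1
      apply RingHom.ext
      intro q
      exact hRX q
    have : Module.Finite (Polynomial k) R := Algebra.IsIntegral.finite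
    have := frac_R hcv.top
    have hinjR : Function.Injective (algebraMap (Polynomial k) R) := by
      intro p q h
      apply transcendental_iff_injective.1 htr
      rw [← hRX, ← hRX, h]
    obtain ⟨hf, hdim⟩ := hNRF k R hinjR r hr
    refine ⟨hf, ?_⟩
    obtain ⟨b, c, hc, hbc⟩ := IsFractionRing.div_surjective
      (A := integralClosure (Polynomial k) F) (r : F)
    have hc0 : c ≠ 0 := nonZeroDivisors.ne_zero hc
    have hr0 : (r : F) ≠ 0 := fun h => hr (Subtype.ext h)
    have hcF : algebraMap (integralClosure (Polynomial k) F) F c ≠ 0 := fun h =>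
      hc0 ((map_eq_zero_iff _ (IsFractionRing.injective _ F)).1 h)
    have hbc' : (r : F) * algebraMap (integralClosure (Polynomial k) F) F c =
        algebraMap (integralClosure (Polynomial k) F) F b := by
      rw [← hbc, div_mul_cancel₀ _ hcF]
    have hb0 : b ≠ 0 := by
      rintro rfl
      rw [map_zero] at hbc'
      exact mul_ne_zero hr0 hcF hbc'
    have h1 := hLNN k F R (integralClosure (Polynomial k) F) l htr hRX hBX r b c hr hb0 hc0 hbc'
    have h2 := hsum inferInstance b hb0
    have h3 := hsum inferInstance c hc0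
    rw [hdim]
    have h4 : ∀ s : Sin k (integralClosure (Polynomial k) F),
        vP s.1 (algebraMap (integralClosure (Polynomial k) F) F b) = vP s.1 (r : F) +
          vP s.1 (algebraMap (integralClosure (Polynomial k) F) F c) := by
      intro s
      rw [← hbc', hmul s.1 _ _ hr0 hcF]
    rw [Finset.sum_congr rfl fun s _ => h4 s, Finset.sum_add_distrib] at h2
    have h5 : ((Algebra.norm (Polynomial k) r).natDegree : ℤ) +
        ((Algebra.norm (Polynomial k) b).rootMultiplicity 0 : ℤ) =
          ((Algebra.norm (Polynomial k) c).rootMultiplicity 0 : ℤ) := by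
      exact_mod_cast h1
    change _ = -∑ s : Sin k (integralClosure (Polynomial k) F), vP s.1 (r : F)
    omega

end Pool.Agent.H42.FFM
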