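import Pool.Agent.H55.FFM.TP

/-!
# The valuations of a Dedekind domain (row PV1 of ffm_modules)
-/

set_option autoImplicit false

open IsDedekindDomain
open Pool.Agent.H55.FFM

namespace Pool.Agent.H42.FFM

section

variable {B F : Type} [CommRing B] [IsDedekindDomain B] [Field F] [Algebra B F]
  [IsFractionRing B F]

theorem val_ne (P : HeightOneSpectrum B) {a : F} (ha : a ≠ 0) : P.valuation F a ≠ 0 :=
  (Valuation.ne_zero_iff _).2 ha

theorem vP_nonneg (P : HeightOneSpectrum B) {a : F} (ha : a ≠ 0) :
    0 ≤ vP P a ↔ P.valuation F a ≤ 1 := by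
  unfold vP
  rw [neg_nonneg, ← WithZero.log_one, WithZero.log_le_log (val_ne P ha) one_ne_zero]

theorem vP_pos (P : HeightOneSpectrum B) {a : F} (ha : a ≠ 0) :
    0 < vP P a ↔ P.valuation F a < 1 := by
  unfold vP
  rw [neg_pos, ← WithZero.log_one, WithZero.log_lt_log (val_ne P ha) one_ne_zero]

end

theorem pf_PV1 : T_PV1 := by
  intro B F _ _ _ _ _
  refine ⟨?_, ?_, ?_, ?_, ?_, ?_⟩
  · intro P a b ha hb
    unfold vP
    rw [map_mul, WithZero.log_mul (val_ne P ha) (val_ne P hb)]
    ring
  · intro P a b ha hb hab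
    have h1 := (P.valuation F).map_add a b
    unfold vP
    rcases le_total (P.valuation F a) (P.valuation F b) with h | h
    · rw [max_eq_right h] at h1
      refine (min_le_right _ _).trans (neg_le_neg ?_)
      exact (WithZero.log_le_log (val_ne P hab) (val_ne P hb)).2 h1
    · rw [max_eq_left h] at h1
      refine (min_le_left _ _).trans (neg_le_neg ?_)
      exact (WithZero.log_le_log (val_ne P hab) (val_ne P ha)).2 h1
  · intro P b hb
    have hb' : algebraMap B F b ≠ 0 := fun h =>
      hb ((map_eq_zero_iff _ (IsFractionRing.injective B F)).1 h)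
    refine ⟨(vP_nonneg P hb').2 (P.valuation_le_one b), ?_⟩
    rw [vP_pos P hb']
    exact P.valuation_lt_one_iff_mem b
  · intro P
    obtain ⟨π, hπ⟩ := P.valuation_exists_uniformizer F
    refine ⟨π, ?_, ?_⟩
    · rintro rfl
      rw [map_zero] at hπ
      exact WithZero.exp_ne_zero hπ.symm
    · unfold vP
      rw [hπ, WithZero.log_exp, neg_neg]
  · intro P Q h
    apply HeightOneSpectrum.ext
    apply Ideal.ext
    intro b
    by_cases hb : b = 0
    · rw [hb]
      exact ⟨fun _ => zero_mem _, fun _ => zero_mem _⟩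
    have hb' : algebraMap B F b ≠ 0 := fun h =>
      hb ((map_eq_zero_iff _ (IsFractionRing.injective B F)).1 h)
    rw [← P.valuation_lt_one_iff_mem (K := F), ← Q.valuation_lt_one_iff_mem (K := F)]
    have h1 := vP_pos P hb'
    have h2 := vP_pos Q hb'
    rw [h _ hb'] at h1
    exact h1.symm.trans h2
  · intro P a ha h
    obtain ⟨b, d, hd⟩ := P.exists_primeCompl_mul_eq_of_integer a ((vP_nonneg P ha).1 h)
    exact ⟨b, d, d.2, hd⟩

end Pool.Agent.H42.FFM
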